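import Mathlib
import Pool.Agent.H26.FK4

set_option autoImplicit false

open MeasureTheory Filter Topology
open scoped ComplexConjugate ENNReal

namespace Pool.Agent.Results.MP_d26497_an.FockResolvent

/-- The Gaussian measure on `ℂⁿ`, with density `exp (-|z|²)` with respect to Lebesgue measure. -/
noncomputable def mu (n : ℕ) : Measure (Fin n → ℂ) :=
  volume.withDensity (fun z => ENNReal.ofReal (Real.exp (-∑ i, ‖z i‖ ^ 2)))

/-- The smallest closed subspace of a Hilbert space `V` containing the set `S`. -/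
def closedSpan {V : Type} [NormedAddCommGroup V] [InnerProductSpace ℂ V] (S : Set V) : Submodule ℂ V :=
  (Submodule.span ℂ S).topologicalClosure

/-- For a closed subspace `K` of a Hilbert space `V` with orthogonal projection `P` and a (graph of an) operator
`M` in `V`: the graph of the compression `f ↦ P (M f)`, defined for the `f ∈ K` in the domain of `M`. The condition
`h - g ⊥ K` says that `g = P h`. -/
def compression {V : Type} [NormedAddCommGroup V] [InnerProductSpace ℂ V] (K : Submodule ℂ V)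
    (M : V → V → Prop) : Set (K × K) :=
  {p | ∃ h : V, M p.1 h ∧ ∀ w ∈ K, inner ℂ w (h - p.2) = 0}

/-- For the graph `G` of an operator `A` in a Hilbert space (so that `closure G` is the graph of the closure of `A`):
the closure of `A` has compact resolvent, that is, for some `lam`, `lam - closure A` has a bounded compact
two-sided inverse `R`. -/
def CompactResolvent {H : Type} [NormedAddCommGroup H] [NormedSpace ℂ H] (G : Set (H × H)) : Prop :=
  ∃ (lam : ℂ) (R : H →L[ℂ] H), IsCompactOperator R ∧ (∀ f : H, (R f, lam • R f - f) ∈ closure G) ∧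
    ∀ f g : H, (f, g) ∈ closure G → R (lam • f - g) = f

/-- The closure of the compression, to the closed span of `S`, of the operator with graph `M` has compact
resolvent. -/
def CompressionHasCompactResolvent {V : Type} [NormedAddCommGroup V] [InnerProductSpace ℂ V] (S : Set V)
    (M : V → V → Prop) : Prop :=
  CompactResolvent (compression (closedSpan S) M)

/-- The elements of `L²(μ)` that are classes of functions in `A`. -/
def classes {X : Type} [MeasurableSpace X] (μ : Measure X) (A : Set (X → ℂ)) : Set (Lp ℂ 2 μ) :=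
  {f | ∃ F ∈ A, f =ᵐ[μ] F}

/-- `h = φ f` in `L²(μ)`. -/
def IsMul {X : Type} [MeasurableSpace X] (μ : Measure X) (φ : X → ℂ) (f h : Lp ℂ 2 μ) : Prop :=
  h =ᵐ[μ] fun z => φ z * f z

/-- With `P` the orthogonal projection of `L²(μ)` onto the closed subspace `K` generated by the functions of `A`
in `L²(μ)`: the closure of the Toeplitz operator `T_φ f = P(φ f)`, with domain the `f ∈ K` for which
`φ f ∈ L²(μ)`, has compact resolvent. -/
def ToeplitzHasCompactResolvent {X : Type} [MeasurableSpace X] (μ : Measure X) (A : Set (X → ℂ)) (φ : X → ℂ) : Prop :=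
  CompressionHasCompactResolvent (classes μ A) (IsMul μ φ)

/-- The entire functions on `ℂⁿ`. -/
def entire (n : ℕ) : Set ((Fin n → ℂ) → ℂ) := {F | AnalyticOnNhd ℂ F Set.univ}

/-- The function `z ↦ p(z, z̄)` attached to a polynomial `p` in the variables `z_i, z̄_i`. -/
noncomputable def ev {n : ℕ} (p : MvPolynomial (Fin n ⊕ Fin n) ℂ) (z : Fin n → ℂ) : ℂ :=
  MvPolynomial.eval (Sum.elim z (fun i => conj (z i))) p

theorem graph_eq (n : ℕ) (φ : (Fin n → ℂ) → ℂ) :
    compression (Pool.Agent.H26.FK.BS n) (IsMul (mu n) φ) = Pool.Agent.H26.FK.toeplitzGraph n φ := by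
  ext ⟨f, g⟩
  constructor
  · rintro ⟨h, h1, h2⟩
    refine ⟨h, h1, ?_⟩
    show g = (Pool.Agent.H26.FK.BS n).orthogonalProjectionOnto h
    have key : inner ℂ (g - (Pool.Agent.H26.FK.BS n).orthogonalProjectionOnto h)
        (g - (Pool.Agent.H26.FK.BS n).orthogonalProjectionOnto h) = 0 := by
      have k1 := h2 _ (g - (Pool.Agent.H26.FK.BS n).orthogonalProjectionOnto h).2
      have k2 : inner ℂ ((g - (Pool.Agent.H26.FK.BS n).orthogonalProjectionOnto h :
          Pool.Agent.H26.FK.BS n) : Lp ℂ 2 (Pool.Agent.H26.FK.mu n)) h =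
          inner ℂ (g - (Pool.Agent.H26.FK.BS n).orthogonalProjectionOnto h)
            ((Pool.Agent.H26.FK.BS n).orthogonalProjectionOnto h) :=
        (Submodule.inner_orthogonalProjectionOnto_eq_of_mem_left _ _).symm
      have k3 : inner ℂ ((g - (Pool.Agent.H26.FK.BS n).orthogonalProjectionOnto h :
          Pool.Agent.H26.FK.BS n) : Lp ℂ 2 (Pool.Agent.H26.FK.mu n)) (h - g) =
          inner ℂ ((g - (Pool.Agent.H26.FK.BS n).orthogonalProjectionOnto h :
          Pool.Agent.H26.FK.BS n) : Lp ℂ 2 (Pool.Agent.H26.FK.mu n)) h -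
          inner ℂ ((g - (Pool.Agent.H26.FK.BS n).orthogonalProjectionOnto h :
          Pool.Agent.H26.FK.BS n) : Lp ℂ 2 (Pool.Agent.H26.FK.mu n)) g := inner_sub_right _ _ _
      have k4 : inner ℂ ((g - (Pool.Agent.H26.FK.BS n).orthogonalProjectionOnto h :
          Pool.Agent.H26.FK.BS n) : Lp ℂ 2 (Pool.Agent.H26.FK.mu n)) (h - g) = 0 := k1
      have k5 : inner ℂ (g - (Pool.Agent.H26.FK.BS n).orthogonalProjectionOnto h)
          (g - (Pool.Agent.H26.FK.BS n).orthogonalProjectionOnto h) =
          inner ℂ (g - (Pool.Agent.H26.FK.BS n).orthogonalProjectionOnto h) g -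
          inner ℂ (g - (Pool.Agent.H26.FK.BS n).orthogonalProjectionOnto h)
            ((Pool.Agent.H26.FK.BS n).orthogonalProjectionOnto h) := inner_sub_right _ _ _
      have k6 : inner ℂ (g - (Pool.Agent.H26.FK.BS n).orthogonalProjectionOnto h) g =
          inner ℂ ((g - (Pool.Agent.H26.FK.BS n).orthogonalProjectionOnto h :
          Pool.Agent.H26.FK.BS n) : Lp ℂ 2 (Pool.Agent.H26.FK.mu n)) g := rfl
      rw [k5, k6, ← k2]
      rw [k3] at k4
      linear_combination -k4
    exact sub_eq_zero.mp (inner_self_eq_zero.mp key)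
  · rintro ⟨h, h1, h2⟩
    refine ⟨h, h1, ?_⟩
    have e : g = (Pool.Agent.H26.FK.BS n).orthogonalProjectionOnto h := h2
    intro w hw
    have k2 : inner ℂ (⟨w, hw⟩ : Pool.Agent.H26.FK.BS n)
        ((Pool.Agent.H26.FK.BS n).orthogonalProjectionOnto h) = inner ℂ w h :=
      Submodule.inner_orthogonalProjectionOnto_eq_of_mem_left _ _
    have k3 : inner ℂ w (h - (g : Lp ℂ 2 (Pool.Agent.H26.FK.mu n))) = inner ℂ w h - inner ℂ w (g : Lp ℂ 2 (Pool.Agent.H26.FK.mu n)) :=
      inner_sub_right _ _ _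
    have k4 : inner ℂ w (g : Lp ℂ 2 (Pool.Agent.H26.FK.mu n)) = inner ℂ (⟨w, hw⟩ : Pool.Agent.H26.FK.BS n) g := rfl
    show inner ℂ w (h - (g : Lp ℂ 2 (Pool.Agent.H26.FK.mu n))) = 0
    rw [k3, k4, e, k2, sub_self]

theorem bridge (n : ℕ) (φ : (Fin n → ℂ) → ℂ) :
    ToeplitzHasCompactResolvent (mu n) (entire n) φ ↔ Pool.Agent.H26.FK.HasCompactResolvent n φ := by
  have h1 : ToeplitzHasCompactResolvent (mu n) (entire n) φ ↔
      CompactResolvent (compression (Pool.Agent.H26.FK.BS n) (IsMul (mu n) φ)) := Iff.rfl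
  rw [h1, graph_eq]
  exact Iff.rfl

/-- Negative answer to Q1. For some `n`, `N ≥ 1`, a homogeneous polynomial `ψ` of degree `N` in `z, z̄` and a
polynomial `φ₁` in `z, z̄` of degree at most `N - 1`: the closure of `T_ψ` has compact resolvent on the
Bargmann-Segal space of `ℂⁿ`, while the closure of `T_{ψ + φ₁}` does not have compact resolvent. -/
theorem result : ∃ (n N : ℕ) (ψ φ₁ : MvPolynomial (Fin n ⊕ Fin n) ℂ), 1 ≤ n ∧ 1 ≤ N ∧
    ψ.IsHomogeneous N ∧ φ₁.totalDegree ≤ N - 1 ∧
    ToeplitzHasCompactResolvent (mu n) (entire n) (ev ψ) ∧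
    ¬ ToeplitzHasCompactResolvent (mu n) (entire n) (ev (ψ + φ₁)) := by
  have hx : ∀ i, (MvPolynomial.X i : MvPolynomial (Fin 2 ⊕ Fin 2) ℂ).IsHomogeneous 1 :=
    fun i => MvPolynomial.isHomogeneous_X ℂ i
  refine ⟨2, 4, MvPolynomial.X (Sum.inl 0) * MvPolynomial.X (Sum.inr 0) *
    (MvPolynomial.X (Sum.inl 1) * MvPolynomial.X (Sum.inr 1)),
    1 - MvPolynomial.X (Sum.inl 0) * MvPolynomial.X (Sum.inr 0) -
    MvPolynomial.X (Sum.inl 1) * MvPolynomial.X (Sum.inr 1), by norm_num, by norm_num, ?_, ?_, ?_, ?_⟩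
  · exact ((hx _).mul (hx _)).mul ((hx _).mul (hx _))
  · have h2 : ∀ i j, (MvPolynomial.X i * MvPolynomial.X j : MvPolynomial (Fin 2 ⊕ Fin 2) ℂ).totalDegree ≤ 2 := by
      intro i j
      exact ((hx i).mul (hx j)).totalDegree_le
    refine (MvPolynomial.totalDegree_sub _ _).trans (max_le ((MvPolynomial.totalDegree_sub _ _).trans (max_le ?_ ?_)) ?_)
    · rw [MvPolynomial.totalDegree_one]; norm_num
    · exact (h2 _ _).trans (by norm_num)
    · exact (h2 _ _).trans (by norm_num)
  · rw [bridge]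
    apply Pool.Agent.H26.FK.pos_part
    intro z
    unfold ev
    simp only [map_mul, MvPolynomial.eval_X, Sum.elim_inl, Sum.elim_inr]
    rw [Complex.mul_conj, Complex.mul_conj, Complex.normSq_eq_norm_sq, Complex.normSq_eq_norm_sq]
    push_cast
    ring
  · rw [bridge]
    apply Pool.Agent.H26.FK.neg_part
    intro z
    unfold ev
    simp only [map_mul, map_add, map_sub, map_one, MvPolynomial.eval_X, Sum.elim_inl, Sum.elim_inr]
    rw [Complex.mul_conj, Complex.mul_conj, Complex.normSq_eq_norm_sq, Complex.normSq_eq_norm_sq]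
    push_cast
    ring

end Pool.Agent.Results.MP_d26497_an.FockResolvent
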