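import Pool.Agent.H9.Y6

/-!
# MP_d26497_an, Q1: compactness of the resolvent is destroyed by lower order terms

`n = 2`, `N = 8`, `ψ = |z_0|^4 |z_1|^4`, `φ₁ = -2 |z_0|^4`.  The closure of `T_ψ` has compact resolvent
(it is diagonal on monomials with eigenvalues `(a+1)(a+2)(b+1)(b+2)`), while the closure of
`T_{ψ+φ₁}` vanishes on all `z_0^k`, so it has no compact resolvent.
-/

set_option autoImplicit false
open MeasureTheory

open Pool.Agent.MP_d26497_an

namespace Pool.Agent.Results.MP_d26497_an.ResolventLost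

open MvPolynomial in
noncomputable def psiP : MvPolynomial (Fin 2 ⊕ Fin 2) ℂ :=
  (X (Sum.inl 0) * X (Sum.inr 0)) ^ 2 * (X (Sum.inl 1) * X (Sum.inr 1)) ^ 2

open MvPolynomial in
noncomputable def phi1P : MvPolynomial (Fin 2 ⊕ Fin 2) ℂ :=
  C (-2) * (X (Sum.inl 0) * X (Sum.inr 0)) ^ 2

lemma symb_psiP : symb psiP = psi := by
  funext z
  unfold symb psiP psi
  simp only [map_mul, map_pow, MvPolynomial.eval_X, Sum.elim_inl, Sum.elim_inr, Complex.mul_conj']
  ring

lemma symb_phiP : symb (psiP + phi1P) = phi := by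
  funext z
  unfold symb psiP phi1P phi
  simp only [map_add, map_mul, map_pow, MvPolynomial.eval_X, MvPolynomial.eval_C, Sum.elim_inl, Sum.elim_inr, Complex.mul_conj']
  ring

lemma psiP_hom : psiP.IsHomogeneous 8 := by
  unfold psiP
  have h : ∀ i : Fin 2, ((MvPolynomial.X (Sum.inl i) * MvPolynomial.X (Sum.inr i) : MvPolynomial (Fin 2 ⊕ Fin 2) ℂ) ^ 2).IsHomogeneous 4 := by
    intro i
    exact ((MvPolynomial.isHomogeneous_X ℂ _).mul (MvPolynomial.isHomogeneous_X ℂ _)).pow 2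
  exact (h 0).mul (h 1)

lemma phi1P_deg : phi1P.totalDegree < 8 := by
  have h : phi1P.IsHomogeneous 4 := by
    unfold phi1P
    have h1 : ((MvPolynomial.X (Sum.inl 0) * MvPolynomial.X (Sum.inr 0) : MvPolynomial (Fin 2 ⊕ Fin 2) ℂ) ^ 2).IsHomogeneous 4 :=
      ((MvPolynomial.isHomogeneous_X ℂ _).mul (MvPolynomial.isHomogeneous_X ℂ _)).pow 2
    have h2 := (MvPolynomial.isHomogeneous_C (Fin 2 ⊕ Fin 2) (-2 : ℂ)).mul h1
    simpa using h2
  have := h.totalDegree_le
  omega

/-- **Q1 of MP_d26497_an is false**: there are `n`, `N`, a homogeneous polynomial `ψ` of degree `N` in `z, \bar z`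
and a polynomial `φ₁` of degree `< N` such that the closure of `T_ψ` has compact resolvent and the closure of
`T_{ψ + φ₁}` does not. -/
theorem result : ∃ (n N : ℕ) (ψ φ₁ : MvPolynomial (Fin n ⊕ Fin n) ℂ),
    1 ≤ n ∧ 1 ≤ N ∧ ψ ≠ 0 ∧ ψ.IsHomogeneous N ∧ φ₁.totalDegree < N ∧
    HasCompactResolvent (toeplitz n (symb ψ)) ∧
    ¬ HasCompactResolvent (toeplitz n (symb (ψ + φ₁))) := by
  refine ⟨2, 8, psiP, phi1P, by norm_num, by norm_num, ?_, psiP_hom, phi1P_deg, ?_, ?_⟩
  · intro h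
    have h1 : symb psiP (fun _ => 1) = 1 := by
      rw [symb_psiP]; unfold psi; simp
    rw [h] at h1
    unfold symb at h1
    simp at h1
  · rw [symb_psiP]; exact psi_compact'
  · rw [symb_phiP]; exact phi_not_compact'

end Pool.Agent.Results.MP_d26497_an.ResolventLost
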